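import Pool.Agent.P8H12.JN.Stm

/-!
# BJ: the beta integral over the line
-/

set_option autoImplicit false

namespace Pool.Agent.P8H75.JN

open MeasureTheory Filter Topology Set
open Pool.Agent.P8H12.JN (S_BJ)

lemma lint_scale {u : ℝ} (hu : u ≠ 0) {h : ℝ → ENNReal} (hm : Measurable h) :
    ∫⁻ b, h b = ENNReal.ofReal |u| * ∫⁻ y, h (u * y) := by
  have h1 : ∫⁻ y, h (u * y) = ∫⁻ b, h b ∂(Measure.map (u * ·) volume) :=
    (lintegral_map hm (measurable_const_mul u)).symm
  rw [h1, Real.map_volume_mul_left hu, lintegral_smul_measure, smul_eq_mul, ← mul_assoc,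
    ← ENNReal.ofReal_mul (abs_nonneg u), ← abs_mul, mul_inv_cancel₀ hu, abs_one,
    ENNReal.ofReal_one, one_mul]

lemma b01 {a b : ℝ} (ha : 0 < a) (hb : 0 < b) :
    ∫⁻ x in Ioo (0 : ℝ) 1, ENNReal.ofReal (x ^ (a - 1) * (1 - x) ^ (b - 1)) =
      ENNReal.ofReal (ProbabilityTheory.beta a b) := by
  have hB := ProbabilityTheory.beta_pos ha hb
  have h1 := ProbabilityTheory.lintegral_betaPDF_eq_one ha hb
  rw [ProbabilityTheory.lintegral_betaPDF] at h1
  have h2 : ∫⁻ (x : ℝ) in Ioo 0 1,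
      ENNReal.ofReal (1 / ProbabilityTheory.beta a b * x ^ (a - 1) * (1 - x) ^ (b - 1)) =
      ENNReal.ofReal (1 / ProbabilityTheory.beta a b) *
        ∫⁻ x in Ioo (0 : ℝ) 1, ENNReal.ofReal (x ^ (a - 1) * (1 - x) ^ (b - 1)) := by
    rw [← lintegral_const_mul _ (by fun_prop)]
    refine lintegral_congr fun x => ?_
    rw [← ENNReal.ofReal_mul (by positivity), mul_assoc]
  rw [h2] at h1
  have h3 : ENNReal.ofReal (ProbabilityTheory.beta a b) *
      ENNReal.ofReal (1 / ProbabilityTheory.beta a b) = 1 := by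
    rw [← ENNReal.ofReal_mul hB.le, mul_one_div_cancel hB.ne', ENNReal.ofReal_one]
  calc ∫⁻ x in Ioo (0 : ℝ) 1, ENNReal.ofReal (x ^ (a - 1) * (1 - x) ^ (b - 1))
      = ENNReal.ofReal (ProbabilityTheory.beta a b) * (ENNReal.ofReal
        (1 / ProbabilityTheory.beta a b) * ∫⁻ x in Ioo (0 : ℝ) 1,
          ENNReal.ofReal (x ^ (a - 1) * (1 - x) ^ (b - 1))) := by
        rw [← mul_assoc, h3, one_mul]
    _ = ENNReal.ofReal (ProbabilityTheory.beta a b) := by rw [h1, mul_one]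

lemma image_inv : (fun u : ℝ => u⁻¹) '' Ioo (0 : ℝ) 1 = Ioi 1 := by
  ext m
  constructor
  · rintro ⟨x, ⟨h1, h2⟩, rfl⟩
    exact one_lt_inv_iff₀.2 ⟨h1, h2⟩
  · intro hm
    have hm1 : 1 < m := hm
    have h0 : 0 < m := by linarith
    exact ⟨m⁻¹, ⟨inv_pos.2 h0, inv_lt_one_of_one_lt₀ hm1⟩, inv_inv m⟩

lemma b1inf {a b : ℝ} (hb : 0 < b) (hab : a + b < 1) :
    ∫⁻ x in Ioi (1 : ℝ), ENNReal.ofReal (x ^ (a - 1) * (x - 1) ^ (b - 1)) =
      ENNReal.ofReal (ProbabilityTheory.beta (1 - a - b) b) := by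
  rw [← b01 (by linarith : (0 : ℝ) < 1 - a - b) hb, ← image_inv,
    lintegral_image_eq_lintegral_abs_deriv_mul measurableSet_Ioo
      (f := fun u : ℝ => u⁻¹) (f' := fun u => -(u ^ 2)⁻¹)
      (fun x hx => (hasDerivAt_inv hx.1.ne').hasDerivWithinAt)
      (fun x _ y _ h => inv_injective h)]
  refine setLIntegral_congr_fun measurableSet_Ioo fun x hx => ?_
  have hx0 : 0 < x := hx.1
  have hx1 : 0 < 1 - x := by linarith [hx.2]
  show ENNReal.ofReal |-(x ^ 2)⁻¹| * ENNReal.ofReal (x⁻¹ ^ (a - 1) * (x⁻¹ - 1) ^ (b - 1)) = _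
  rw [← ENNReal.ofReal_mul (abs_nonneg _)]
  congr 1
  have e1 : |-(x ^ 2)⁻¹| = x ^ (-(2 : ℝ)) := by
    rw [abs_neg, abs_of_pos (by positivity), Real.rpow_neg hx0.le,
      show (2 : ℝ) = ((2 : ℕ) : ℝ) by norm_num, Real.rpow_natCast]
  have e2 : x⁻¹ - 1 = (1 - x) * x⁻¹ := by
    field_simp
  rw [e1, e2, Real.mul_rpow hx1.le (by positivity), Real.inv_rpow hx0.le, Real.inv_rpow hx0.le,
    ← Real.rpow_neg hx0.le, ← Real.rpow_neg hx0.le]
  have e3 : x ^ (-(2 : ℝ)) * (x ^ (-(a - 1)) * ((1 - x) ^ (b - 1) * x ^ (-(b - 1)))) =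
      (x ^ (-(2 : ℝ)) * x ^ (-(a - 1)) * x ^ (-(b - 1))) * (1 - x) ^ (b - 1) := by ring
  rw [e3, ← Real.rpow_add hx0, ← Real.rpow_add hx0]
  congr 2
  ring

/-- the sum of the three beta values -/
lemma beta_sum {a b : ℝ} (ha : 0 < a) (hb : 0 < b) (hab : a + b < 1) :
    ProbabilityTheory.beta (1 - b - a) a + (ProbabilityTheory.beta a b +
      ProbabilityTheory.beta (1 - a - b) b) =
      (2 * Real.Gamma a * Real.cos (Real.pi * a / 2)) *
      (2 * Real.Gamma b * Real.cos (Real.pi * b / 2)) /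
      (2 * Real.Gamma (a + b) * Real.cos (Real.pi * (a + b) / 2)) := by
  have hpi := Real.pi_pos
  have hGa := Real.Gamma_pos_of_pos ha
  have hGb := Real.Gamma_pos_of_pos hb
  have hGs := Real.Gamma_pos_of_pos (add_pos ha hb)
  have hGc := Real.Gamma_pos_of_pos (by linarith : (0 : ℝ) < 1 - (a + b))
  have hG1a := Real.Gamma_pos_of_pos (by linarith : (0 : ℝ) < 1 - a)
  have hG1b := Real.Gamma_pos_of_pos (by linarith : (0 : ℝ) < 1 - b)
  have ra := Real.Gamma_mul_Gamma_one_sub a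
  have rb := Real.Gamma_mul_Gamma_one_sub b
  have rs := Real.Gamma_mul_Gamma_one_sub (a + b)
  have hsa : 0 < Real.sin (Real.pi * a) :=
    Real.sin_pos_of_pos_of_lt_pi (by positivity) (by nlinarith)
  have hsb : 0 < Real.sin (Real.pi * b) :=
    Real.sin_pos_of_pos_of_lt_pi (by positivity) (by nlinarith)
  have hss : 0 < Real.sin (Real.pi * (a + b)) :=
    Real.sin_pos_of_pos_of_lt_pi (by positivity) (by nlinarith)
  have hcs : 0 < Real.cos (Real.pi * (a + b) / 2) := by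
    apply Real.cos_pos_of_mem_Ioo
    constructor
    · have : 0 < Real.pi * (a + b) / 2 := by positivity
      linarith
    · nlinarith
  rw [eq_div_iff hsa.ne'] at ra
  rw [eq_div_iff hsb.ne'] at rb
  rw [eq_div_iff hss.ne'] at rs
  unfold ProbabilityTheory.beta
  rw [show 1 - b - a + a = 1 - b by ring, show 1 - a - b + b = 1 - a by ring,
    show 1 - b - a = 1 - (a + b) by ring, show 1 - a - b = 1 - (a + b) by ring]
  set Ga := Real.Gamma a
  set Gb := Real.Gamma b
  set Gs := Real.Gamma (a + b)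
  set Gc := Real.Gamma (1 - (a + b))
  set G1a := Real.Gamma (1 - a)
  set G1b := Real.Gamma (1 - b)
  have t1 : Gc * Ga / G1b = Ga * Gb * Gc * Real.sin (Real.pi * b) / Real.pi := by
    rw [div_eq_div_iff hG1b.ne' hpi.ne']
    linear_combination (-(Gc * Ga)) * rb
  have t2 : Gc * Gb / G1a = Ga * Gb * Gc * Real.sin (Real.pi * a) / Real.pi := by
    rw [div_eq_div_iff hG1a.ne' hpi.ne']
    linear_combination (-(Gc * Gb)) * ra
  have t3 : Ga * Gb / Gs = Ga * Gb * Gc * Real.sin (Real.pi * (a + b)) / Real.pi := by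
    rw [div_eq_div_iff hGs.ne' hpi.ne']
    linear_combination (-(Ga * Gb)) * rs
  have t4 : Real.sin (Real.pi * b) + (Real.sin (Real.pi * (a + b)) + Real.sin (Real.pi * a)) =
      4 * Real.sin (Real.pi * (a + b) / 2) * Real.cos (Real.pi * a / 2) *
        Real.cos (Real.pi * b / 2) := by
    have e1 : Real.pi * b = 2 * (Real.pi * b / 2) := by ring
    have e2 : Real.pi * a = 2 * (Real.pi * a / 2) := by ring
    have e3 : Real.pi * (a + b) = 2 * (Real.pi * (a + b) / 2) := by ring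
    have e4 : Real.pi * (a + b) / 2 = Real.pi * a / 2 + Real.pi * b / 2 := by ring
    have s1 : Real.sin (Real.pi * b) = 2 * Real.sin (Real.pi * b / 2) *
        Real.cos (Real.pi * b / 2) := by
      conv_lhs => rw [e1]
      exact Real.sin_two_mul _
    have s2 : Real.sin (Real.pi * a) = 2 * Real.sin (Real.pi * a / 2) *
        Real.cos (Real.pi * a / 2) := by
      conv_lhs => rw [e2]
      exact Real.sin_two_mul _
    have s3 : Real.sin (Real.pi * (a + b)) = 2 * Real.sin (Real.pi * (a + b) / 2) *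
        Real.cos (Real.pi * (a + b) / 2) := by
      conv_lhs => rw [e3]
      exact Real.sin_two_mul _
    rw [s1, s2, s3, e4, Real.sin_add, Real.cos_add]
    have c1 := Real.sin_sq_add_cos_sq (Real.pi * a / 2)
    have c2 := Real.sin_sq_add_cos_sq (Real.pi * b / 2)
    set sA := Real.sin (Real.pi * a / 2)
    set cA := Real.cos (Real.pi * a / 2)
    set sB := Real.sin (Real.pi * b / 2)
    set cB := Real.cos (Real.pi * b / 2)
    linear_combination (-2 * sB * cB) * c1 + (-2 * sA * cA) * c2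
  have t5 : Real.sin (Real.pi * (a + b)) = 2 * Real.sin (Real.pi * (a + b) / 2) *
      Real.cos (Real.pi * (a + b) / 2) := by
    have e3 : Real.pi * (a + b) = 2 * (Real.pi * (a + b) / 2) := by ring
    conv_lhs => rw [e3]
    exact Real.sin_two_mul _
  have t6 : (2 * Ga * Real.cos (Real.pi * a / 2)) * (2 * Gb * Real.cos (Real.pi * b / 2)) /
      (2 * Gs * Real.cos (Real.pi * (a + b) / 2)) = Ga * Gb * Gc *
        (4 * Real.sin (Real.pi * (a + b) / 2) * Real.cos (Real.pi * a / 2) *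
        Real.cos (Real.pi * b / 2)) / Real.pi := by
    rw [div_eq_div_iff (by positivity) hpi.ne']
    rw [t5] at rs
    linear_combination (-(4 * Ga * Gb * Real.cos (Real.pi * a / 2) *
      Real.cos (Real.pi * b / 2))) * rs
  rw [t1, t2, t3, t6, ← t4]
  ring

/-- BJ -/
theorem bj : S_BJ := by
  intro a b ha hb hab t ht
  have hm : ∀ s : ℝ, Measurable fun x : ℝ =>
      ENNReal.ofReal (|x| ^ (a - 1) * |s - x| ^ (b - 1)) := by
    intro s
    fun_prop
  -- reduction to `t = 1`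
  have h1 : ∫⁻ x : ℝ, ENNReal.ofReal (|x| ^ (a - 1) * |t - x| ^ (b - 1)) =
      ENNReal.ofReal (|t| ^ (a + b - 1)) *
        ∫⁻ x : ℝ, ENNReal.ofReal (|x| ^ (a - 1) * |1 - x| ^ (b - 1)) := by
    have ht0 : 0 < |t| := abs_pos.2 ht
    rw [lint_scale ht (hm t)]
    have h2 : ∀ y : ℝ, ENNReal.ofReal (|t * y| ^ (a - 1) * |t - t * y| ^ (b - 1)) =
        ENNReal.ofReal (|t| ^ (a - 1) * |t| ^ (b - 1)) *
          ENNReal.ofReal (|y| ^ (a - 1) * |1 - y| ^ (b - 1)) := by
      intro y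
      rw [← ENNReal.ofReal_mul (by positivity), show t - t * y = t * (1 - y) by ring, abs_mul,
        abs_mul, Real.mul_rpow (abs_nonneg _) (abs_nonneg _),
        Real.mul_rpow (abs_nonneg _) (abs_nonneg _)]
      congr 1
      ring
    simp only [h2]
    rw [lintegral_const_mul _ (hm 1), ← mul_assoc, ← ENNReal.ofReal_mul (abs_nonneg _)]
    congr 2
    have e : |t| * (|t| ^ (a - 1) * |t| ^ (b - 1)) = |t| ^ (1 : ℝ) * (|t| ^ (a - 1) * |t| ^ (b - 1)) := by
      rw [Real.rpow_one]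
    rw [e, ← Real.rpow_add ht0, ← Real.rpow_add ht0]
    congr 1
    ring
  rw [h1, ENNReal.ofReal_mul (by positivity)]
  congr 1
  -- the three pieces
  set f : ℝ → ENNReal := fun x => ENNReal.ofReal (|x| ^ (a - 1) * |1 - x| ^ (b - 1)) with hf
  have hfm : Measurable f := hm 1
  have p1 : ∫⁻ x in Iio (0 : ℝ), f x = ENNReal.ofReal (ProbabilityTheory.beta (1 - b - a) a) := by
    rw [← b1inf ha (by linarith : b + a < 1), ← lintegral_indicator measurableSet_Iio,
      ← lintegral_indicator measurableSet_Ioi, ← lintegral_sub_left_eq_self _ (1 : ℝ)]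
    refine lintegral_congr fun y => ?_
    by_cases hy : 1 < y
    · rw [indicator_of_mem (show 1 - y ∈ Iio (0 : ℝ) by
        show 1 - y < 0
        linarith), indicator_of_mem (show y ∈ Ioi (1 : ℝ) from hy), hf]
      show ENNReal.ofReal (|1 - y| ^ (a - 1) * |1 - (1 - y)| ^ (b - 1)) = _
      rw [show 1 - (1 - y) = y by ring, abs_of_pos (by linarith : 0 < y),
        abs_of_neg (by linarith : 1 - y < 0), show -(1 - y) = y - 1 by ring, mul_comm]
    · rw [indicator_of_notMem (show 1 - y ∉ Iio (0 : ℝ) by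
        show ¬ 1 - y < 0
        linarith), indicator_of_notMem (show y ∉ Ioi (1 : ℝ) from hy)]
  have p2 : ∫⁻ x in Ioo (0 : ℝ) 1, f x = ENNReal.ofReal (ProbabilityTheory.beta a b) := by
    rw [← b01 ha hb]
    refine setLIntegral_congr_fun measurableSet_Ioo fun x hx => ?_
    show ENNReal.ofReal (|x| ^ (a - 1) * |1 - x| ^ (b - 1)) = _
    rw [abs_of_pos hx.1, abs_of_pos (by linarith [hx.2] : 0 < 1 - x)]
  have p3 : ∫⁻ x in Ioi (1 : ℝ), f x = ENNReal.ofReal (ProbabilityTheory.beta (1 - a - b) b) := by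
    rw [← b1inf hb hab]
    refine setLIntegral_congr_fun measurableSet_Ioi fun x hx => ?_
    have hx1 : 1 < x := hx
    show ENNReal.ofReal (|x| ^ (a - 1) * |1 - x| ^ (b - 1)) = _
    rw [abs_of_pos (by linarith : 0 < x), abs_of_neg (by linarith : 1 - x < 0),
      show -(1 - x) = x - 1 by ring]
  have p0 : ∫⁻ x, f x = (∫⁻ x in Iio (0 : ℝ), f x) + ((∫⁻ x in Ioo (0 : ℝ) 1, f x) +
      ∫⁻ x in Ioi (1 : ℝ), f x) := by
    rw [← lintegral_add_compl f (measurableSet_Iic (a := (0 : ℝ))), compl_Iic,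
      ← setLIntegral_congr Iio_ae_eq_Iic]
    congr 1
    rw [← Ioc_union_Ioi_eq_Ioi (zero_le_one (α := ℝ)),
      lintegral_union measurableSet_Ioi (by
        rw [Set.disjoint_left]
        rintro x hx hx'
        exact absurd hx.2 (not_le.2 hx')), ← setLIntegral_congr Ioo_ae_eq_Ioc]
  have hb1 := ProbabilityTheory.beta_pos (by linarith : (0 : ℝ) < 1 - b - a) ha
  have hb2 := ProbabilityTheory.beta_pos ha hb
  have hb3 := ProbabilityTheory.beta_pos (by linarith : (0 : ℝ) < 1 - a - b) hb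
  rw [p0, p1, p2, p3, ← ENNReal.ofReal_add hb2.le hb3.le, ← ENNReal.ofReal_add hb1.le (by positivity),
    beta_sum ha hb hab]

end Pool.Agent.P8H75.JN
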