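import Pool.Agent.P8H12.JN.Stm

/-!
# SCL and REG: scaling, and the truncated regions are Jordan measurable
-/

set_option autoImplicit false

namespace Pool.Agent.P8H75.JN

open MeasureTheory Filter Topology Set Pointwise
open Pool.Agent.P8H12.JN (S_SCL S_REG co Phi Jor Cone Un gam)

lemma co_smul {d : ℕ} (t : ℝ) (u : Fin d → ℝ) (i : Fin (d + 1)) : co (t • u) i = t * co u i := by
  unfold co
  refine Fin.lastCases ?_ (fun j => ?_) i
  · rw [Fin.snoc_last, Fin.snoc_last]
    simp only [Pi.smul_apply, smul_eq_mul, ← Finset.mul_sum]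
    ring
  · rw [Fin.snoc_castSucc, Fin.snoc_castSucc]
    rfl

lemma Phi_eq {d : ℕ} (u : Fin d → ℝ) : Phi u = (∏ i, |u i|) * |∑ i, u i| := by
  unfold Phi co
  rw [Fin.prod_univ_castSucc]
  simp only [Fin.snoc_castSucc, Fin.snoc_last, abs_neg]

lemma Phi_smul {d : ℕ} (t : ℝ) (u : Fin d → ℝ) : Phi (t • u) = |t| ^ (d + 1) * Phi u := by
  unfold Phi
  simp only [co_smul, abs_mul]
  rw [Finset.prod_mul_distrib, Finset.prod_const, Finset.card_univ, Fintype.card_fin]

lemma Phi_cont {d : ℕ} : Continuous (Phi : (Fin d → ℝ) → ℝ) := by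
  have : (Phi : (Fin d → ℝ) → ℝ) = fun u => (∏ i, |u i|) * |∑ i, u i| := by
    funext u
    exact Phi_eq u
  rw [this]
  fun_prop

lemma Phi_nonneg {d : ℕ} (u : Fin d → ℝ) : 0 ≤ Phi u :=
  Finset.prod_nonneg fun _ _ => abs_nonneg _

/-- the root -/
lemma exists_root (d : ℕ) {w : ℝ} (hw : 0 < w) : ∃ t : ℝ, 0 < t ∧ t ^ (d + 1) = w ∧
    t ^ d = w ^ gam (d + 1) := by
  refine ⟨w ^ (1 / ((d : ℝ) + 1)), Real.rpow_pos_of_pos hw _, ?_, ?_⟩
  · rw [← Real.rpow_natCast, ← Real.rpow_mul hw.le]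
    push_cast
    rw [one_div_mul_cancel (by positivity), Real.rpow_one]
  · rw [← Real.rpow_natCast, ← Real.rpow_mul hw.le]
    congr 1
    unfold gam
    push_cast
    field_simp
    ring

/-- SCL -/
theorem scl : S_SCL := by
  intro d _ Q hQ w hw
  obtain ⟨t, ht, ht1, ht2⟩ := exists_root d hw
  have h1 : {u | u ∈ Q ∧ Phi u ≤ w} = t • (Q ∩ Un d) := by
    ext u
    rw [Set.mem_smul_set_iff_inv_smul_mem₀ ht.ne']
    have e : Phi (t⁻¹ • u) = w⁻¹ * Phi u := by
      rw [Phi_smul, abs_of_pos (inv_pos.2 ht), inv_pow, ht1]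
    constructor
    · rintro ⟨g1, g2⟩
      refine ⟨hQ.2.2 _ (inv_pos.2 ht) u g1, ?_⟩
      show Phi (t⁻¹ • u) ≤ 1
      rw [e, inv_mul_le_iff₀ hw, mul_one]
      exact g2
    · rintro ⟨g1, g2⟩
      have g3 : Phi (t⁻¹ • u) ≤ 1 := g2
      rw [e, inv_mul_le_iff₀ hw, mul_one] at g3
      refine ⟨?_, g3⟩
      have := hQ.2.2 t ht _ g1
      rwa [smul_inv_smul₀ ht.ne'] at this
  rw [h1, Measure.addHaar_smul, Module.finrank_fin_fun, abs_of_pos (pow_pos ht d), ht2]

/-- level sets are null -/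
lemma level_null {d : ℕ} {c : ℝ} (hc : 0 < c) : volume {u : Fin d → ℝ | Phi u = c} = 0 := by
  by_contra hcon
  have hpos : 0 < volume {u : Fin d → ℝ | Phi u = c} := pos_iff_ne_zero.2 hcon
  have hall : ∀ c' : ℝ, 0 < c' → 0 < volume {u : Fin d → ℝ | Phi u = c'} := by
    intro c' hc'
    obtain ⟨t, ht, ht1, -⟩ := exists_root d (div_pos hc' hc)
    have h1 : {u : Fin d → ℝ | Phi u = c'} = t • {u : Fin d → ℝ | Phi u = c} := by
      ext u
      rw [Set.mem_smul_set_iff_inv_smul_mem₀ ht.ne']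
      have e : Phi (t⁻¹ • u) = (c' / c)⁻¹ * Phi u := by
        rw [Phi_smul, abs_of_pos (inv_pos.2 ht), inv_pow, ht1]
      show Phi u = c' ↔ Phi (t⁻¹ • u) = c
      rw [e]
      constructor
      · intro h
        rw [h]
        field_simp
      · intro h
        field_simp at h
        linarith
    rw [h1, Measure.addHaar_smul]
    apply ENNReal.mul_pos _ hcon
    rw [Module.finrank_fin_fun]
    have := pow_pos ht d
    simp only [ne_eq, ENNReal.ofReal_eq_zero, not_le]
    positivity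
  have hcount := Measure.countable_meas_level_set_pos (μ := (volume : Measure (Fin d → ℝ)))
    (g := Phi) Phi_cont.measurable
  have hsub : Ioi (0 : ℝ) ⊆ {t : ℝ | 0 < volume {a : Fin d → ℝ | Phi a = t}} :=
    fun c' hc' => hall c' hc'
  have h0 := (hcount.mono hsub).measure_zero volume
  rw [Real.volume_Ioi] at h0
  exact ENNReal.top_ne_zero h0

/-- REG -/
theorem reg : S_REG := by
  intro d hd Q hQ hfQ T a b ha
  have hd0 : 0 < d := by omega
  have hbox : Convex ℝ {u : Fin d → ℝ | ∀ i, |u i| ≤ T} := by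
    have : {u : Fin d → ℝ | ∀ i, |u i| ≤ T} = ⋂ i, {u : Fin d → ℝ | |u i| ≤ T} := by
      ext u
      simp
    rw [this]
    refine convex_iInter fun i => ?_
    have h1 : {u : Fin d → ℝ | |u i| ≤ T} = {u | u i ≤ T} ∩ {u | -T ≤ u i} := by
      ext u
      show |u i| ≤ T ↔ u i ≤ T ∧ -T ≤ u i
      rw [abs_le, and_comm]
    rw [h1]
    have hl : IsLinearMap ℝ fun u : Fin d → ℝ => u i := ⟨fun _ _ => rfl, fun _ _ => rfl⟩
    exact (convex_halfSpace_le hl T).inter (convex_halfSpace_ge hl (-T))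
  have e1 : {u : Fin d → ℝ | u ∈ Q ∧ (∀ i, |u i| ≤ T) ∧ a ≤ Phi u ∧ Phi u ≤ b} =
      Q ∩ ({u | ∀ i, |u i| ≤ T} ∩ ({u | a ≤ Phi u} ∩ {u | Phi u ≤ b})) := rfl
  by_cases hab : a ≤ b
  · refine ⟨?_, ?_, ?_⟩
    · refine (Metric.isBounded_closedBall (x := (0 : Fin d → ℝ)) (r := |T|)).subset ?_
      rintro u ⟨-, h1, -⟩
      rw [Metric.mem_closedBall, dist_zero_right, pi_norm_le_iff_of_nonneg (abs_nonneg T)]
      intro i
      exact (h1 i).trans (le_abs_self T)
    · rw [e1]
      have m1 : MeasurableSet {u : Fin d → ℝ | ∀ i, |u i| ≤ T} := by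
        have : {u : Fin d → ℝ | ∀ i, |u i| ≤ T} = ⋂ i, {u : Fin d → ℝ | |u i| ≤ T} := by
          ext u
          simp
        rw [this]
        exact MeasurableSet.iInter fun i => measurableSet_le (by fun_prop) measurable_const
      have m2 : MeasurableSet {u : Fin d → ℝ | a ≤ Phi u} :=
        measurableSet_le measurable_const Phi_cont.measurable
      have m3 : MeasurableSet {u : Fin d → ℝ | Phi u ≤ b} :=
        measurableSet_le Phi_cont.measurable measurable_const
      exact hQ.inter (m1.inter (m2.inter m3))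
    · have hi : ∀ s t : Set (Fin d → ℝ), frontier (s ∩ t) ⊆ frontier s ∪ frontier t := by
        intro s t
        refine (frontier_inter_subset s t).trans ?_
        exact union_subset_union inter_subset_left inter_subset_right
      have hsub : frontier {u : Fin d → ℝ | u ∈ Q ∧ (∀ i, |u i| ≤ T) ∧ a ≤ Phi u ∧ Phi u ≤ b} ⊆
          frontier Q ∪ (frontier {u : Fin d → ℝ | ∀ i, |u i| ≤ T} ∪
            ({u | Phi u = a} ∪ {u | Phi u = b})) := by
        rw [e1]
        refine (hi _ _).trans (union_subset_union_right _ ?_)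
        refine (hi _ _).trans (union_subset_union_right _ ?_)
        refine (hi _ _).trans (union_subset_union ?_ ?_)
        · intro u hu
          exact (frontier_le_subset_eq continuous_const Phi_cont hu).symm
        · exact frontier_le_subset_eq Phi_cont continuous_const
      refine measure_mono_null hsub ?_
      simp only [measure_union_null_iff]
      exact ⟨hfQ, hbox.addHaar_frontier volume, level_null ha, level_null (lt_of_lt_of_le ha hab)⟩
  · have e2 : {u : Fin d → ℝ | u ∈ Q ∧ (∀ i, |u i| ≤ T) ∧ a ≤ Phi u ∧ Phi u ≤ b} = ∅ := by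
      rw [Set.eq_empty_iff_forall_notMem]
      rintro u ⟨-, -, h1, h2⟩
      exact hab (h1.trans h2)
    rw [e2]
    refine ⟨Bornology.isBounded_empty, MeasurableSet.empty, ?_⟩
    rw [frontier_empty, measure_empty]

end Pool.Agent.P8H75.JN
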