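import Pool.Agent.P8H75.JN.REG
import Pool.Agent.P8H75.JN.BJ

/-!
# VOL: the volume
-/

set_option autoImplicit false

namespace Pool.Agent.P8H75.JN

open MeasureTheory Filter Topology Set
open Pool.Agent.P8H12.JN (S_VOL co Phi Un gam)

/-- the constant `c(s) = 2 Γ(s) cos (π s / 2)` -/
noncomputable def cs (s : ℝ) : ℝ := 2 * Real.Gamma s * Real.cos (Real.pi * s / 2)

lemma cs_pos {s : ℝ} (h0 : 0 < s) (h1 : s < 1) : 0 < cs s := by
  have hpi := Real.pi_pos
  have hG := Real.Gamma_pos_of_pos h0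
  have hc : 0 < Real.cos (Real.pi * s / 2) := by
    apply Real.cos_pos_of_mem_Ioo
    constructor
    · have : 0 < Real.pi * s / 2 := by positivity
      linarith
    · nlinarith
  unfold cs
  positivity

lemma cs_refl {s : ℝ} (h0 : 0 < s) (h1 : s < 1) : cs s * cs (1 - s) = 2 * Real.pi := by
  have hpi := Real.pi_pos
  have rs := Real.Gamma_mul_Gamma_one_sub s
  have hss : 0 < Real.sin (Real.pi * s) :=
    Real.sin_pos_of_pos_of_lt_pi (by positivity) (by nlinarith)
  rw [eq_div_iff hss.ne'] at rs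
  unfold cs
  have e1 : Real.cos (Real.pi * (1 - s) / 2) = Real.sin (Real.pi * s / 2) := by
    rw [← Real.cos_pi_div_two_sub]
    congr 1
    ring
  have e2 : Real.sin (Real.pi * s) = 2 * Real.sin (Real.pi * s / 2) *
      Real.cos (Real.pi * s / 2) := by
    have e3 : Real.pi * s = 2 * (Real.pi * s / 2) := by ring
    conv_lhs => rw [e3]
    exact Real.sin_two_mul _
  rw [e1]
  rw [e2] at rs
  linear_combination 2 * rs

lemma lint_cons {k : ℕ} {F : (Fin (k + 1) → ℝ) → ENNReal} (hF : Measurable F) :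
    ∫⁻ u, F u = ∫⁻ t : ℝ, ∫⁻ y : Fin k → ℝ, F (Fin.cons t y) := by
  have h := (volume_preserving_piFinSuccAbove (fun _ : Fin (k + 1) => ℝ) 0).symm
  have hm2 : Measurable fun z : ℝ × (Fin k → ℝ) =>
      F ((MeasurableEquiv.piFinSuccAbove (fun _ : Fin (k + 1) => ℝ) 0).symm z) :=
    hF.comp h.measurable
  rw [← h.lintegral_comp hF, Measure.volume_eq_prod, lintegral_prod _ hm2.aemeasurable]
  refine lintegral_congr fun t => lintegral_congr fun y => ?_
  congr 1
  exact Fin.insertNth_zero' t y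

lemma lint_smul {k : ℕ} {t : ℝ} (ht : t ≠ 0) {G : (Fin k → ℝ) → ENNReal} (hG : Measurable G) :
    ∫⁻ y, G y = ENNReal.ofReal (|t| ^ k) * ∫⁻ x, G (t • x) := by
  have h1 : ∫⁻ x, G (t • x) = ∫⁻ y, G y ∂(Measure.map (t • ·) volume) :=
    (lintegral_map hG (measurable_const_smul t)).symm
  have ht0 : 0 < |t| := abs_pos.2 ht
  rw [h1, Measure.map_addHaar_smul volume ht, lintegral_smul_measure, smul_eq_mul, ← mul_assoc,
    ← ENNReal.ofReal_mul (by positivity), Module.finrank_fin_fun, abs_inv, abs_pow,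
    mul_inv_cancel₀ (by positivity), ENNReal.ofReal_one, one_mul]

lemma ae_ne (c : ℝ) : ∀ᵐ x : ℝ, x ≠ c := by
  rw [ae_iff]
  have : {a : ℝ | ¬ a ≠ c} = {c} := by
    ext a
    simp
  rw [this]
  exact Real.volume_singleton

/-- the iterated beta integral -/
lemma iter {a : ℝ} (ha : 0 < a) : ∀ k : ℕ, ((k : ℝ) + 1) * a < 1 → ∀ t : ℝ, t ≠ 0 →
    ∫⁻ x : Fin k → ℝ, ENNReal.ofReal ((∏ i, |x i| ^ (a - 1)) * |t - ∑ i, x i| ^ (a - 1)) =
      ENNReal.ofReal (|t| ^ (((k : ℝ) + 1) * a - 1) * (cs a ^ (k + 1) / cs (((k : ℝ) + 1) * a))) := by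
  intro k
  induction k with
  | zero =>
    intro h1 t ht
    have ha1 : a < 1 := by simpa using h1
    have hc := cs_pos ha ha1
    have e1 : ∀ x : Fin 0 → ℝ, ENNReal.ofReal ((∏ i, |x i| ^ (a - 1)) * |t - ∑ i, x i| ^ (a - 1)) =
        ENNReal.ofReal (|t| ^ (a - 1)) := by
      intro x
      simp
    simp only [e1]
    rw [lintegral_const]
    have e2 : (volume : Measure (Fin 0 → ℝ)) univ = 1 := by
      rw [volume_pi, Measure.pi_of_empty]
      simp
    rw [e2, mul_one]
    congr 1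
    rw [Nat.cast_zero, zero_add, zero_add, one_mul, pow_one, div_self hc.ne', mul_one]
  | succ k ih =>
    intro h1 t ht
    push_cast at h1 ⊢
    have hk : ((k : ℝ) + 1) * a < 1 := by nlinarith
    have hk0 : 0 < ((k : ℝ) + 1) * a := by positivity
    have hs : a + ((k : ℝ) + 1) * a < 1 := by linarith
    have hc1 := cs_pos ha (by linarith)
    have hc2 := cs_pos hk0 hk
    have hm : Measurable fun x : Fin (k + 1) → ℝ =>
        ENNReal.ofReal ((∏ i, |x i| ^ (a - 1)) * |t - ∑ i, x i| ^ (a - 1)) := by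
      fun_prop
    rw [lint_cons hm]
    have e1 : ∀ᵐ x0 : ℝ, ∫⁻ y : Fin k → ℝ, ENNReal.ofReal
        ((∏ i, |(Fin.cons x0 y : Fin (k + 1) → ℝ) i| ^ (a - 1)) *
          |t - ∑ i, (Fin.cons x0 y : Fin (k + 1) → ℝ) i| ^ (a - 1)) =
        ENNReal.ofReal (cs a ^ (k + 1) / cs (((k : ℝ) + 1) * a)) *
          ENNReal.ofReal (|x0| ^ (a - 1) * |t - x0| ^ (((k : ℝ) + 1) * a - 1)) := by
      filter_upwards [ae_ne t] with x0 hx0
      have ht0 : t - x0 ≠ 0 := fun h => hx0 (by linarith)
      have e2 : ∀ y : Fin k → ℝ, ENNReal.ofReal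
        ((∏ i, |(Fin.cons x0 y : Fin (k + 1) → ℝ) i| ^ (a - 1)) *
          |t - ∑ i, (Fin.cons x0 y : Fin (k + 1) → ℝ) i| ^ (a - 1)) =
          ENNReal.ofReal (|x0| ^ (a - 1)) * ENNReal.ofReal
            ((∏ i, |y i| ^ (a - 1)) * |(t - x0) - ∑ i, y i| ^ (a - 1)) := by
        intro y
        rw [← ENNReal.ofReal_mul (by positivity), Fin.prod_univ_succ, Fin.sum_univ_succ]
        simp only [Fin.cons_zero, Fin.cons_succ]
        rw [mul_assoc, sub_sub]
      simp only [e2]
      rw [lintegral_const_mul _ (by fun_prop), ih hk _ ht0, ← ENNReal.ofReal_mul (by positivity),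
        ← ENNReal.ofReal_mul (by positivity)]
      congr 1
      ring
    rw [lintegral_congr_ae e1, lintegral_const_mul _ (by fun_prop), bj a _ ha hk0 hs t ht,
      ← ENNReal.ofReal_mul (by positivity)]
    congr 1
    have e3 : a + ((k : ℝ) + 1) * a = ((k : ℝ) + 1 + 1) * a := by ring
    rw [e3]
    have e4 : cs a ^ (k + 1 + 1) = cs a ^ (k + 1) * cs a := pow_succ _ _
    rw [e4]
    have hcs : ∀ s : ℝ, 2 * Real.Gamma s * Real.cos (Real.pi * s / 2) = cs s := fun s => rfl
    rw [hcs, hcs, hcs]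
    field_simp

/-- the integral over one line -/
lemma lint_line {k : ℕ} {φ : ℝ} (hφ : 0 < φ) :
    ∫⁻ t : ℝ, indicator {t : ℝ | |t| ^ (k + 2) * φ ≤ 1} (fun t => ENNReal.ofReal (|t| ^ k)) t =
      ENNReal.ofReal (2 / ((k : ℝ) + 1) * φ ^ (1 / ((k : ℝ) + 2) - 1)) := by
  set r : ℝ := φ ^ (-(1 / ((k : ℝ) + 2))) with hr
  have hr0 : 0 < r := Real.rpow_pos_of_pos hφ _
  have hr1 : r ^ (k + 2) * φ = 1 := by
    rw [hr, ← Real.rpow_natCast, ← Real.rpow_mul hφ.le]
    push_cast
    rw [show -(1 / ((k : ℝ) + 2)) * ((k : ℝ) + 2) = -1 by field_simp, Real.rpow_neg_one]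
    exact inv_mul_cancel₀ hφ.ne'
  have hr2 : r ^ (k + 1) = φ ^ (1 / ((k : ℝ) + 2) - 1) := by
    rw [hr, ← Real.rpow_natCast, ← Real.rpow_mul hφ.le]
    congr 1
    push_cast
    field_simp
    ring
  have h1 : ∀ t : ℝ, indicator {t : ℝ | |t| ^ (k + 2) * φ ≤ 1} (fun t => ENNReal.ofReal (|t| ^ k)) t
      = indicator (Icc (-r) r) (fun t => ENNReal.ofReal (|t| ^ k)) t := by
    intro t
    have e : |t| ^ (k + 2) * φ ≤ 1 ↔ t ∈ Icc (-r) r := by
      rw [← hr1, mul_le_mul_iff_left₀ hφ, mem_Icc, ← abs_le]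
      exact pow_le_pow_iff_left₀ (abs_nonneg t) hr0.le (by omega)
    by_cases ht : t ∈ Icc (-r) r
    · rw [indicator_of_mem (by exact e.2 ht), indicator_of_mem ht]
    · rw [indicator_of_notMem (by exact fun h => ht (e.1 h)), indicator_of_notMem ht]
  simp only [h1]
  rw [lintegral_indicator measurableSet_Icc, ← ofReal_integral_eq_lintegral_ofReal]
  · congr 1
    rw [integral_Icc_eq_integral_Ioc, ← intervalIntegral.integral_of_le (by linarith)]
    have hc : Continuous fun t : ℝ => |t| ^ k := by fun_prop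
    rw [← intervalIntegral.integral_add_adjacent_intervals (b := (0 : ℝ))
      (hc.intervalIntegrable _ _) (hc.intervalIntegrable _ _)]
    have i1 : ∫ t in (0 : ℝ)..r, |t| ^ k = r ^ (k + 1) / ((k : ℝ) + 1) := by
      have : ∫ t in (0 : ℝ)..r, |t| ^ k = ∫ t in (0 : ℝ)..r, t ^ k := by
        refine intervalIntegral.integral_congr fun t ht => ?_
        rw [uIcc_of_le hr0.le] at ht
        show |t| ^ k = t ^ k
        rw [abs_of_nonneg ht.1]
      rw [this, integral_pow]
      simp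
    have i2 : ∫ t in (-r)..(0 : ℝ), |t| ^ k = ∫ t in (0 : ℝ)..r, |t| ^ k := by
      have := intervalIntegral.integral_comp_neg (a := (0 : ℝ)) (b := r) (fun t : ℝ => |t| ^ k)
      simp only [abs_neg, neg_zero] at this
      exact this.symm
    rw [i2, i1, hr2]
    ring
  · have hc : Continuous fun t : ℝ => |t| ^ k := by fun_prop
    exact hc.integrableOn_Icc
  · exact Eventually.of_forall fun t => by positivity

/-- the hyperplanes are null -/
lemma ae_sum_ne (k : ℕ) : ∀ᵐ x : Fin (k + 1) → ℝ, ∑ i, x i ≠ -1 := by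
  let L : (Fin (k + 1) → ℝ) →ₗ[ℝ] ℝ := ∑ i, LinearMap.proj i
  have hL : ∀ x, L x = ∑ i, x i := by
    intro x
    simp [L]
  have h1 : LinearMap.ker L ≠ ⊤ := by
    intro h
    have h2 : (Pi.single 0 1 : Fin (k + 1) → ℝ) ∈ LinearMap.ker L := by
      rw [h]
      trivial
    rw [LinearMap.mem_ker, hL] at h2
    simp at h2
  have h2 := Measure.addHaar_submodule volume (LinearMap.ker L) h1
  rw [ae_iff]
  have h3 : {x : Fin (k + 1) → ℝ | ¬ ∑ i, x i ≠ -1} =
      (fun x => x + (Pi.single 0 1 : Fin (k + 1) → ℝ)) ⁻¹' (LinearMap.ker L : Set (Fin (k + 1) → ℝ)) := by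
    ext x
    rw [mem_preimage, SetLike.mem_coe, LinearMap.mem_ker, hL]
    simp only [Pi.add_apply, Finset.sum_add_distrib]
    rw [Finset.sum_pi_single']
    simp only [Finset.mem_univ, if_true, mem_ofPred_eq, ne_eq, not_not]
    constructor
    · intro h
      rw [h]
      norm_num
    · intro h
      linarith
  rw [h3, measure_preimage_add_right, h2]

/-- VOL -/
theorem vol : S_VOL := by
  intro d hd
  obtain ⟨k, rfl⟩ : ∃ k, d = k + 1 + 1 := ⟨d - 2, by omega⟩
  have hUm : MeasurableSet (Un (k + 1 + 1)) :=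
    measurableSet_le Phi_cont.measurable measurable_const
  set a : ℝ := 1 / (((k + 1 : ℕ) : ℝ) + 2) with ha
  have hk0 : (0 : ℝ) ≤ ((k + 1 : ℕ) : ℝ) := Nat.cast_nonneg _
  have ha0 : 0 < a := by positivity
  have ha1 : a < 1 := by
    rw [ha, div_lt_one (by positivity)]
    linarith
  set φ : (Fin (k + 1) → ℝ) → ℝ := fun x => (∏ i, |x i|) * |-1 - ∑ i, x i| with hφ
  have hφc : Continuous φ := by
    rw [hφ]
    fun_prop
  -- the function after the substitution
  set G : ℝ → (Fin (k + 1) → ℝ) → ENNReal := fun t x =>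
    indicator {q : ℝ × (Fin (k + 1) → ℝ) | |q.1| ^ (k + 1 + 2) * φ q.2 ≤ 1}
      (fun q => ENNReal.ofReal (|q.1| ^ (k + 1))) (t, x) with hG
  have hGm : Measurable (Function.uncurry G) := by
    have : Function.uncurry G = indicator {q : ℝ × (Fin (k + 1) → ℝ) |
        |q.1| ^ (k + 1 + 2) * φ q.2 ≤ 1} (fun q => ENNReal.ofReal (|q.1| ^ (k + 1))) := by
      funext q
      rfl
    rw [this]
    apply Measurable.indicator
    · exact ENNReal.measurable_ofReal.comp (by fun_prop)
    · have hc : Continuous fun q : ℝ × (Fin (k + 1) → ℝ) => |q.1| ^ (k + 1 + 2) * φ q.2 := by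
        have := hφc.comp (continuous_snd (X := ℝ) (Y := Fin (k + 1) → ℝ))
        exact ((continuous_fst.abs).pow _).mul this
      exact measurableSet_le hc.measurable measurable_const
  have h1 : volume (Un (k + 1 + 1)) = ∫⁻ t : ℝ, ∫⁻ x : Fin (k + 1) → ℝ, G t x := by
    rw [← lintegral_indicator_one hUm, lint_cons (measurable_one.indicator hUm)]
    refine lintegral_congr_ae ?_
    filter_upwards [ae_ne 0] with t ht
    have hm : Measurable fun y : Fin (k + 1) → ℝ =>
        (Un (k + 1 + 1)).indicator (1 : (Fin (k + 1 + 1) → ℝ) → ENNReal) (Fin.cons t y) := by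
      refine (measurable_one.indicator hUm).comp ?_
      rw [measurable_pi_iff]
      intro i
      refine Fin.cases ?_ (fun j => ?_) i
      · simp only [Fin.cons_zero]
        exact measurable_const
      · simp only [Fin.cons_succ]
        exact measurable_pi_apply j
    rw [lint_smul ht hm, ← lintegral_const_mul]
    · refine lintegral_congr fun x => ?_
      have e1 : Phi (Fin.cons t (t • x) : Fin (k + 1 + 1) → ℝ) = |t| ^ (k + 1 + 2) * φ x := by
        rw [Phi_eq, Fin.prod_univ_succ, Fin.sum_univ_succ]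
        simp only [Fin.cons_zero, Fin.cons_succ, Pi.smul_apply, smul_eq_mul, abs_mul]
        rw [Finset.prod_mul_distrib, Finset.prod_const, Finset.card_univ, Fintype.card_fin,
          ← Finset.mul_sum]
        have e2 : |t + t * ∑ i, x i| = |t| * |-1 - ∑ i, x i| := by
          rw [← abs_mul, ← abs_neg]
          congr 1
          ring
        rw [e2, hφ]
        ring
      show ENNReal.ofReal (|t| ^ (k + 1)) * (Un (k + 1 + 1)).indicator 1 (Fin.cons t (t • x)) = G t x
      rw [hG]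
      by_cases h : |t| ^ (k + 1 + 2) * φ x ≤ 1
      · rw [indicator_of_mem (show (Fin.cons t (t • x) : Fin (k + 1 + 1) → ℝ) ∈ Un (k + 1 + 1) by
          show Phi _ ≤ 1
          rw [e1]
          exact h)]
        show _ = indicator _ _ _
        rw [indicator_of_mem (by exact h)]
        simp
      · rw [indicator_of_notMem (show (Fin.cons t (t • x) : Fin (k + 1 + 1) → ℝ) ∉ Un (k + 1 + 1) by
          show ¬ Phi _ ≤ 1
          rw [e1]
          exact h)]
        show _ = indicator _ _ _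
        rw [indicator_of_notMem (by exact h), mul_zero]
    · exact hm.comp (measurable_const_smul t)
  rw [h1, lintegral_lintegral_swap hGm.aemeasurable]
  have h2 : ∀ᵐ x : Fin (k + 1) → ℝ, ∫⁻ t : ℝ, G t x = ENNReal.ofReal (2 / (((k + 1 : ℕ) : ℝ) + 1)) *
      ENNReal.ofReal ((∏ i, |x i| ^ (a - 1)) * |-1 - ∑ i, x i| ^ (a - 1)) := by
    have hx : ∀ᵐ x : Fin (k + 1) → ℝ, ∀ i, x i ≠ 0 := by
      rw [ae_all_iff]
      intro i
      rw [ae_iff]
      have : {x : Fin (k + 1) → ℝ | ¬ x i ≠ 0} = {x | x i = 0} := by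
        ext x
        simp
      rw [this]
      exact Measure.pi_hyperplane (fun _ : Fin (k + 1) => (volume : Measure ℝ)) i 0
    filter_upwards [hx, ae_sum_ne k] with x hx1 hx2
    have hφ0 : 0 < φ x := by
      refine mul_pos (Finset.prod_pos fun i _ => abs_pos.2 (hx1 i)) (abs_pos.2 ?_)
      intro h
      apply hx2
      linarith
    have e1 : ∫⁻ t : ℝ, G t x = ∫⁻ t : ℝ, indicator {t : ℝ | |t| ^ (k + 1 + 2) * φ x ≤ 1}
        (fun t => ENNReal.ofReal (|t| ^ (k + 1))) t := rfl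
    rw [e1, lint_line hφ0, ← ha, ← ENNReal.ofReal_mul (by positivity)]
    congr 2
    rw [hφ]
    show ((∏ i, |x i|) * |-1 - ∑ i, x i|) ^ (a - 1) = _
    rw [Real.mul_rpow (Finset.prod_nonneg fun i _ => abs_nonneg _) (abs_nonneg _),
      ← Real.finsetProd_rpow _ _ (fun i _ => abs_nonneg _)]
  have hka : (((k + 1 : ℕ) : ℝ) + 1) * a = 1 - a := by
    rw [ha]
    field_simp
    ring
  rw [lintegral_congr_ae h2, lintegral_const_mul _ (by fun_prop),
    iter ha0 (k + 1) (by rw [hka]; linarith) (-1) (by norm_num),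
    ← ENNReal.ofReal_mul (by positivity), hka, abs_neg, abs_one, Real.one_rpow, one_mul]
  congr 1
  have hc1 := cs_pos ha0 ha1
  have hc2 := cs_pos (by linarith : 0 < 1 - a) (by linarith)
  have hrefl := cs_refl ha0 ha1
  have hpi := Real.pi_pos
  have e1 : (2 * Real.Gamma (1 / (((k + 1 + 1 : ℕ) : ℝ) + 1)) *
      Real.cos (Real.pi / (2 * (((k + 1 + 1 : ℕ) : ℝ) + 1)))) = cs a := by
    have hA : 1 / (((k + 1 + 1 : ℕ) : ℝ) + 1) = a := by
      rw [ha]
      push_cast
      ring
    have hB : Real.pi / (2 * (((k + 1 + 1 : ℕ) : ℝ) + 1)) = Real.pi * a / 2 := by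
      rw [← hA]
      field_simp
    rw [hA, hB]
    rfl
  rw [e1]
  push_cast
  have e2 : cs a ^ (k + 1 + 1 + 1) = cs a ^ (k + 1 + 1) * cs a := pow_succ _ _
  rw [e2, div_mul_div_comm, div_eq_div_iff (by positivity) (by positivity)]
  linear_combination (-(cs a ^ (k + 1 + 1)) * ((k : ℝ) + 1 + 1)) * hrefl

end Pool.Agent.P8H75.JN
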